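import Pool.Agent.P8H31.AE.Trees
import Pool.Agent.P8H31.AE.Lower

/-!
# Corner-free sets in `(F_2^n)^2` decided by additive equations in arbitrary abelian groups

Let `a`, `b`, `c` be arbitrary functions from `F_2^n` to an arbitrary abelian group `H`. We consider
the corner-free sets `{(x, y) : a x + b y = c (x + y)}`, their unions and their intersections with
the sets of the starting result `ComparisonTrees`; in the decision trees of that result we also
allow the queries `a x + b y ≤ c (x + y)` with arbitrary integers of at most `M` bits.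

The constructions of large corner-free sets by lifts of `x`, `y`, `x + y` to `ℤ ^ n` (or to another
group) give unions of few sets of this kind: the labels `a x`, `b y`, `c z` are the lifts. By (4)
below the sets `{(x, y) : a x + b y = c (x + y)}` include corner-free sets with `(2√3 - o(1))^n`
elements, the record of the starting result `GaussianLifts`. We show that there is a power-saving
bound for all corner-free sets of this kind, so that such constructions cannot disprove the
power-saving bound of the problem: the exponential growth rate of the largest corner-free sets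
`{(x, y) : a x + b y = c (x + y)}` is at least `2√3` and less than `4`.

Note that the equation by itself says nothing (for constant functions it always holds), and that
`H` may have exponent `2`; the labels may also be linear functions, or a mixture of the two
(a part of the points `x` with labels in `F_2^n`, another part with labels in `ℤ^n`, and so on).
The sets in the list of the known results which are decided by equations are decided by the equality
of labels of two of the three elements `x`, `y`, `x + y` (`ComparisonTrees`) or by a sum over the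
coordinates (`AdditiveStatistics`).

## Proof

Let `A` be such a set with `4^n / K` elements. The graph of `a` over the set of the popular `x` has
the additive energy `8^n / K^O(1)` in `F_2^n × H`. By the theorem of Balog, Szemerédi and Gowers
there is a large part `B` of the graph with small doubling. Since `2 x = 0` in `F_2^n`, the set
`B + 2 B` consists of the elements `(x, a x + 2 a x')`, so that `2 a` has at most `K^O(1)` values on
`B`. So `a` has values in one coset of the subgroup `H[2]` on a large part of `B`, and the polynomial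
Freiman-Ruzsa theorem in characteristic two shows that `a` is the sum of a homomorphism and a constant
on a set with `2^n / K^O(1)` elements `x`, all of them popular (`Pool.Agent.P8H31.AE.piece`). The same
holds for `b` and `c`, one after the other. On the set of the remaining points of `A` a linear
equation between the three homomorphisms `F_2^n → H` holds, so that their differences have small
images, and on a large part of it all three of them agree. Hence `A` contains at least `4^n / K^O(1)`
points of a set `{(x, y) : x ∈ X, y ∈ Y, x + y ∈ Z}` all of whose points satisfy the equation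
(`Pool.Agent.P8H31.AE.reduce`). The theorem `ComparisonTrees` applies to this part of `A`.

A comparison `a x + b y ≤ c (x + y)` of `M`-bit integers, and its negation, are unions of `O(M)`
additive equations, one or two for every binary digit: the first digits of the three numbers satisfy
`a + b ≈ c` up to a constant as long as the comparison is undecided. So a decision tree with such
queries is a union of `O(M)^k` sets decided by usual comparisons and one additive equation
(`Pool.Agent.P8H31.AE.pieces_tree`).
-/

set_option autoImplicit false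

namespace Pool.Agent.Results.MP_db4732_co.AdditiveEquations

open Finset
open Pool.Agent.Results.MP_db4732_co.ComparisonTrees (V CornerFree Decomposes IsMatching
  IsComparison Tree)

/-- `Q x y` says that `a x + b y = c (x + y)`, for arbitrary functions `a`, `b`, `c` from `F_2^n` to
an abelian group `H`. -/
def IsAdditive {n : ℕ} (Q : V n → V n → Prop) : Prop :=
  ∃ (H : Type) (_ : AddCommGroup H) (a b c : V n → H), ∀ x y, Q x y ↔ a x + b y = c (x + y)

/-- `Q x y` says that `a x + b y ≤ c (x + y)`, for arbitrary functions `a`, `b`, `c` from `F_2^n` to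
the integers of absolute value at most `2^M`. -/
def IsSumComparison {n : ℕ} (M : ℕ) (Q : V n → V n → Prop) : Prop :=
  ∃ a b c : V n → ℤ, (∀ x, |a x| ≤ 2 ^ M ∧ |b x| ≤ 2 ^ M ∧ |c x| ≤ 2 ^ M) ∧
    ∀ x y, Q x y ↔ a x + b y ≤ c (x + y)

/-- All queries of the decision tree are comparisons of the labels of two of the three elements `x`,
`y`, `x + y` (`IsComparison`) or comparisons `a x + b y ≤ c (x + y)` (`IsSumComparison M`). -/
def SumComparisons {n : ℕ} (M : ℕ) : Tree n → Prop
  | .leaf _ => True
  | .node C s t => (IsComparison C ∨ IsSumComparison M C) ∧ SumComparisons M s ∧ SumComparisons M t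

lemma queries_of {n M : ℕ} (T : Tree n) (h : SumComparisons M T) :
    Pool.Agent.P8H31.AE.Queries
      (fun C => IsComparison C ∨ Pool.Agent.P8H31.AE.IsSumComparison M C) T := by
  induction T with
  | leaf b => trivial
  | node C s t ihs iht => exact ⟨h.1, ihs h.2.1, iht h.2.2⟩

/-- **Theorem.** There are constants `C, c > 0` with the following properties.

(1) Let `A ⊆ (F_2^n)^2` be corner-free and the union of `N` sets of the following form: the points
`(x, y)` with `f_i (x, y) ≠ 0`, where `f_i` has values in a field of characteristic 2 and is a sum of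
`S` products of a matrix of rank at most `r` and a function of `x + y`; at which arbitrary labels of
`x`, `y` and `x + y` match in pairs; **at which an additive equation `a_i x + b_i y = c_i (x + y)`
holds**, in an abelian group which may depend on `i`; and which are accepted by a decision tree of
depth at most `k` whose queries are arbitrary comparisons of two of the three elements
**or comparisons `a x + b y ≤ c (x + y)`** of arbitrary integers of absolute value at most `2^M`. Then
`|A| ≤ C N ((4 M + 12) (2 n + 2))^k (S (2 r + 1))^{1/4} 4^{(1 - c) n}`.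

(2) In particular `|A| ≤ C N 4^{(1 - c) n}` if the corner-free set `A` is the union of `N` sets
`{(x, y) : a_i x + b_i y = c_i (x + y)}`; for instance if it is the set of the points at which a
function `a x + b y + c (x + y)` has one of `N` given values.

(3) If the group `H` has no elements of order two, and if the function `a` has no value more than
`m` times, then the equation `a x + b y = c (x + y)` has at most `C 4^n (m / 2^n)^c` solutions
`(x, y)`, corner-free or not; for instance at most `C 4^{(1 - c/2) n}` if `a` is injective.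

(4) For every `ρ < 2√3` and every large `n` there is a corner-free set
`{(x, y) : a x + b y = c (x + y)}` with at least `ρ^n` elements. -/
theorem result :
    (∃ C c : ℝ, 0 < C ∧ 0 < c ∧
      (∀ (n N k M S r : ℕ) (K : Type) [Field K] [CharP K 2] (A : Finset (V n × V n)),
        CornerFree A →
        ∀ (f : Fin N → V n → V n → K) (E : Fin N → V n → V n → Prop)
          (Q : Fin N → V n → V n → Prop) (T : Fin N → Tree n),
          (∀ i, Decomposes S r (f i)) → (∀ i, IsMatching (E i)) → (∀ i, IsAdditive (Q i)) →
          (∀ i, SumComparisons M (T i)) → (∀ i, (T i).depth ≤ k) →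
          (∀ x y, (x, y) ∈ A ↔ ∃ i, f i x y ≠ 0 ∧ E i x y ∧ Q i x y ∧ (T i).Accepts x y) →
          (#A : ℝ) ≤ C * N * ((4 * M + 12) * (2 * n + 2)) ^ k *
            (S * (2 * r + 1) : ℝ) ^ ((1 : ℝ) / 4) * (4 : ℝ) ^ ((1 - c) * (n : ℝ))) ∧
      (∀ (n N : ℕ) (A : Finset (V n × V n)), CornerFree A → ∀ Q : Fin N → V n → V n → Prop,
        (∀ i, IsAdditive (Q i)) → (∀ x y, (x, y) ∈ A ↔ ∃ i, Q i x y) →
        (#A : ℝ) ≤ C * N * (4 : ℝ) ^ ((1 - c) * (n : ℝ))) ∧
      (∀ (n m : ℕ) (H : Type) [AddCommGroup H], (∀ h : H, h + h = 0 → h = 0) →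
        ∀ a b d : V n → H, (∀ h, Nat.card {x // a x = h} ≤ m) →
        (Nat.card {p : V n × V n // a p.1 + b p.2 = d (p.1 + p.2)} : ℝ) ≤
          C * 4 ^ n * ((m : ℝ) / 2 ^ n) ^ c)) ∧
    (∀ ρ : ℝ, 0 ≤ ρ → ρ < 2 * Real.sqrt 3 → ∃ n₀ : ℕ, ∀ n, n₀ ≤ n →
      ∃ A : Finset (V n × V n), CornerFree A ∧ (IsAdditive fun x y => (x, y) ∈ A) ∧
        ρ ^ n ≤ #A) := by
  classical
  constructor
  · obtain ⟨D1, hD1, hl1⟩ := Pool.Agent.P8H31.AE.loss
    obtain ⟨D2, hD2, hl2⟩ := Pool.Agent.P8H31.AE.Phi_le
    set D := D1 + D2 with hD
    have hDpos : 1 ≤ D := by omega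
    have hDr : (0 : ℝ) < D := by exact_mod_cast hDpos
    have hloss : ∀ K : ℝ, 1 ≤ K → Pool.Agent.P8H31.AE.Phi (Pool.Agent.P8H31.AE.Phi
        (Pool.Agent.P8H31.AE.Phi K)) ^ 2 ≤ (2 * K) ^ D := fun K hK =>
      (hl1 K hK).trans (pow_le_pow_right₀ (by linarith) (by omega))
    have hphi : ∀ K : ℝ, 1 ≤ K → Pool.Agent.P8H31.AE.Phi K ≤ (2 * K) ^ D := fun K hK => by
      have h1 := Pool.Agent.P8H31.AE.one_le_Phi hK
      have h2 := (hl2 K hK).trans (pow_le_pow_right₀ (by linarith : (1 : ℝ) ≤ 2 * K)
        (by omega : D2 ≤ D))
      linarith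
    have one : ∀ (n N k M S r : ℕ) (K : Type) [Field K] [CharP K 2] (A : Finset (V n × V n)),
        CornerFree A →
        ∀ (f : Fin N → V n → V n → K) (E : Fin N → V n → V n → Prop)
          (Q : Fin N → V n → V n → Prop) (T : Fin N → Tree n),
          (∀ i, Decomposes S r (f i)) → (∀ i, IsMatching (E i)) → (∀ i, IsAdditive (Q i)) →
          (∀ i, SumComparisons M (T i)) → (∀ i, (T i).depth ≤ k) →
          (∀ x y, (x, y) ∈ A ↔ ∃ i, f i x y ≠ 0 ∧ E i x y ∧ Q i x y ∧ (T i).Accepts x y) →
          (#A : ℝ) ≤ 2 * N * ((4 * M + 12) * (2 * n + 2)) ^ k *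
            (S * (2 * r + 1) : ℝ) ^ ((1 : ℝ) / 4) * (4 : ℝ) ^ ((1 - 0.01 / D) * (n : ℝ)) := by
      intro n N k M S r K _ _ A hA f E Q T hf hE hQ hT hk hfA
      let B : Fin N → Finset (V n × V n) := fun i =>
        univ.filter fun p => f i p.1 p.2 ≠ 0 ∧ E i p.1 p.2 ∧ Q i p.1 p.2 ∧ (T i).Accepts p.1 p.2
      have hBA : ∀ i, B i ⊆ A := by
        intro i p hp
        exact (hfA p.1 p.2).2 ⟨i, (mem_filter.1 hp).2⟩
      have hsub : A ⊆ univ.biUnion B := by
        intro p hp
        obtain ⟨i, hi⟩ := (hfA p.1 p.2).1 hp
        exact mem_biUnion.2 ⟨i, mem_univ _, mem_filter.2 ⟨mem_univ _, hi⟩⟩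
      have h1 : ∀ i, (#(B i) : ℝ) ≤ (4 * M + 12) ^ k * (2 * ((2 * n + 2) ^ k *
          (S * (2 * r + 1) : ℝ) ^ ((1 : ℝ) / 4)) * (4 : ℝ) ^ ((1 - 0.01 / D : ℝ) * n)) := by
        intro i
        obtain ⟨ι, hι, T', q, hcard, hT', hk', hq, hacc⟩ :=
          (Pool.Agent.P8H31.AE.pieces_tree (T i) (queries_of _ (hT i))).mono (hk i)
            (Nat.pow_le_pow_right (by omega) (hk i))
        let B' : ι → Finset (V n × V n) := fun j =>
          univ.filter fun p => f i p.1 p.2 ≠ 0 ∧ E i p.1 p.2 ∧ (T' j).Accepts p.1 p.2 ∧
            (Q i p.1 p.2 ∧ q j p.1 p.2)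
        have hBB : B i = univ.biUnion B' := by
          ext p
          simp only [B, B', mem_filter, mem_univ, true_and, mem_biUnion, hacc]
          constructor
          · rintro ⟨p1, p2, p3, j, p4, p5⟩
            exact ⟨j, p1, p2, p4, p3, p5⟩
          · rintro ⟨j, p1, p2, p4, p3, p5⟩
            exact ⟨p1, p2, p3, j, p4, p5⟩
        have hone : ∀ j, (#(B' j) : ℝ) ≤ 2 * ((2 * n + 2) ^ k *
            (S * (2 * r + 1) : ℝ) ^ ((1 : ℝ) / 4)) * (4 : ℝ) ^ ((1 - 0.01 / D : ℝ) * n) := by
          intro j
          refine Pool.Agent.P8H31.AE.one_piece hDpos hloss n k S r K A hA (f i) (hf i) (E i) (hE i)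
            (T' j) (hT' j) (hk' j) (fun x y => Q i x y ∧ q j x y)
            (Pool.Agent.P8H31.AE.IsAdditive.and (hQ i) (hq j)) (B' j) ?_
            fun x y => by simp [B']
          refine Finset.Subset.trans ?_ (hBA i)
          rw [hBB]
          exact Finset.subset_biUnion_of_mem B' (mem_univ j)
        have hc1 : (#(B i) : ℝ) ≤ ∑ j, (#(B' j) : ℝ) := by
          rw [hBB]
          exact_mod_cast Finset.card_biUnion_le
        refine hc1.trans ((Finset.sum_le_sum fun j _ => hone j).trans ?_)
        rw [Finset.sum_const, Finset.card_univ, nsmul_eq_mul]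
        refine mul_le_mul_of_nonneg_right ?_ (by positivity)
        have : ((Fintype.card ι : ℕ) : ℝ) ≤ (((4 * M + 12) ^ k : ℕ) : ℝ) := by exact_mod_cast hcard
        push_cast at this
        exact this
      refine (Pool.Agent.Results.MP_db4732_co.ComparisonTrees.union_bound B hsub _ h1).trans
        (le_of_eq ?_)
      rw [mul_pow]
      ring
    refine ⟨4, 0.01 / D, by norm_num, by positivity, ?_, ?_, ?_⟩
    · intro n N k M S r K _ _ A hA f E Q T hf hE hQ hT hk hfA
      refine (one n N k M S r K A hA f E Q T hf hE hQ hT hk hfA).trans ?_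
      gcongr
      norm_num
    · intro n N A hA Q hQ hQA
      have h := one n N 0 0 1 1 (ZMod 2) A hA (fun _ _ _ => 1) (fun _ _ _ => True) Q
        (fun _ => Tree.leaf true)
        (fun _ => ⟨fun _ _ _ => 1, fun _ _ _ => 1, fun _ _ => 1, fun x y => by simp⟩)
        (fun _ => ⟨fun _ => 0, fun _ => 0, fun _ => 0, fun _ => 0, fun _ => 0, fun _ => 0,
          fun x y => by simp⟩) hQ
        (fun _ => trivial) (fun _ => le_rfl) (fun x y => by
          rw [hQA]
          simp [Tree.Accepts])
      refine h.trans ?_
      have h3 : ((1 : ℕ) * (2 * (1 : ℕ) + 1) : ℝ) ^ ((1 : ℝ) / 4) ≤ 2 := by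
        have h5 : (2 : ℝ) = (16 : ℝ) ^ ((1 : ℝ) / 4) := by
          rw [show (16 : ℝ) = 2 ^ (4 : ℕ) by norm_num, ← Real.rpow_natCast, ← Real.rpow_mul
            (by norm_num)]
          norm_num
        rw [h5]
        exact Real.rpow_le_rpow (by norm_num) (by norm_num) (by norm_num)
      rw [pow_zero, mul_one]
      calc 2 * (N : ℝ) * ((1 : ℕ) * (2 * (1 : ℕ) + 1) : ℝ) ^ ((1 : ℝ) / 4) *
            (4 : ℝ) ^ ((1 - 0.01 / D) * (n : ℝ))
          ≤ 2 * (N : ℝ) * 2 * (4 : ℝ) ^ ((1 - 0.01 / D) * (n : ℝ)) := by gcongr
        _ = 4 * N * (4 : ℝ) ^ ((1 - 0.01 / D) * (n : ℝ)) := by ring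
    · intro n m H _ h2 a b d hm
      have hm' : ∀ h, #{x | a x = h} ≤ m := by
        intro h
        have := hm h
        rwa [Nat.card_eq_fintype_card, Fintype.card_subtype] at this
      have h : (#{p : V n × V n | a p.1 + b p.2 = d (p.1 + p.2)} : ℝ) ≤
          4 * 4 ^ n * ((m : ℝ) / 2 ^ n) ^ ((1 : ℝ) / D) := by
        refine (Pool.Agent.P8H31.AE.no_two_torsion hDpos hphi h2 a b d m hm').trans ?_
        gcongr
        norm_num
      rw [Nat.card_eq_fintype_card, Fintype.card_subtype]
      have hc1 : (0.01 / D : ℝ) ≤ (1 : ℝ) / D := div_le_div_of_nonneg_right (by norm_num) hDr.le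
      have hq0 : 0 ≤ (m : ℝ) / 2 ^ n := by positivity
      rcases le_or_gt ((m : ℝ) / 2 ^ n) 1 with h1 | h1
      · rcases hq0.eq_or_lt with h0 | h0
        · rw [← h0] at h ⊢
          rw [Real.zero_rpow (by positivity)] at h
          rw [Real.zero_rpow (by positivity)]
          exact h
        · exact h.trans (mul_le_mul_of_nonneg_left
            (Real.rpow_le_rpow_of_exponent_ge h0 h1 hc1) (by positivity))
      · have h3 : #{p : V n × V n | a p.1 + b p.2 = d (p.1 + p.2)} ≤ Fintype.card (V n × V n) :=
          Finset.card_le_univ _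
        rw [Fintype.card_prod, Pool.Agent.P8H31.AE.card_V, ← mul_pow] at h3
        have h4 : ((#{p : V n × V n | a p.1 + b p.2 = d (p.1 + p.2)} : ℕ) : ℝ) ≤ (4 : ℝ) ^ n := by
          exact_mod_cast h3
        have h5 : (1 : ℝ) ≤ ((m : ℝ) / 2 ^ n) ^ (0.01 / D : ℝ) :=
          Real.one_le_rpow h1.le (by positivity)
        have h6 : (0 : ℝ) < (4 : ℝ) ^ n := by positivity
        nlinarith
  · intro ρ h0 hρ
    obtain ⟨n0, h⟩ := Pool.Agent.P8H31.AE.exists_cornerFree' 2 ρ h0 (by
      push_cast
      have : Real.sqrt 3 / 2 * (2 : ℝ) ^ 2 = 2 * Real.sqrt 3 := by ring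
      rw [this]
      exact hρ)
    refine ⟨n0, fun n hn => ?_⟩
    obtain ⟨A, hA, hadd, hAc⟩ := h n hn
    exact ⟨A, fun x y z hz hh => hz (hA x y z hh.1 hh.2.1 hh.2.2), hadd, hAc⟩

end Pool.Agent.Results.MP_db4732_co.AdditiveEquations
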