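import Pool.Agent.P8H46.BS.Main
import Pool.Agent.P8H46.BS.Rank
import Pool.Agent.P8H46.BS.Split
import Pool.Agent.P8H53.BS.Four
import Pool.Agent.W856.Corner4

/-!
# Corner-free sets in `(F_2^n)^2` with block symmetric lines

A set `S ⊆ F_2^n` is symmetric with `J` blocks if there are a centre `o` and a partition of the `n`
coordinates into `J` blocks such that membership of `y` in `S` only depends on the numbers of the
coordinates in the blocks at which `y` differs from `o`. For instance any function of the numbers of
true literals in `k` arbitrary sets of literals is symmetric with `3 ^ k` blocks: Boolean combinations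
of `k` majority gates, exact threshold gates, `MOD m` gates or other symmetric gates, and any
function of the distances to `k` points. Also all sets `{y | ∑ i, w i * y i ∈ B}` where the
coefficients `w i` (in an arbitrary commutative monoid) have at most `J` different values.

There is a power-saving bound for the corner-free sets all of whose rows (or columns, or diagonals)
are unions of `T ≤ 2 ^ (n / 110)` sets which are symmetric with at most `n / 200` blocks. The centres
and the partitions may depend on the line and on the piece in an arbitrary way.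

Proof. (a) Let two rows `x`, `x'` of a corner-free set contain exact half slices: `y ∈ F_2^n` with
prescribed values on `F`, and such that `y` differs from the centre `o` (`o'`) at exactly half of the
coordinates of each of the blocks `Q j` (`Q' j`) which partition the complement of `F`. If the
prescribed values agree, if `z = x + x'` vanishes on `F` and has an even number of ones in every block
`Q j`, and if `o + o'` has an even number of ones in every block `Q' j`, then there is a point `y` in
both slices with `y + z` in the first slice, i.e. a corner: choose a perfect matching of the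
coordinates inside the sets `Q j ∩ z`, `Q j \ z` and another one inside the sets `Q' j ∩ (o + o')`,
`Q' j \ (o + o')`; the union of the two matchings has a proper 2-colouring. So for the rows with the
same `F` and the same values on `F` the product of the `2 J` parity conditions is the identity
matrix over `F_2`; since its rank is at most `(∑_{i ≤ J} C(n, i))^2` there are few such rows.
(b) The slice of a point with small imbalance contains an exact half slice with few prescribed values,
and few points have a large imbalance.

Proof by helper 46 (mathematics, class of rows, assembly), helper 53 (slices, moments, examples),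
helper 76 (halving lemma, rank bound).
-/

set_option autoImplicit false

namespace Pool.Agent.Results.MP_db4732_co.BlockSymmetricLines

open Finset

/-- `F_2^n` -/
abbrev V (n : ℕ) := Fin n → ZMod 2

/-- `A ⊆ (F_2^n)^2` contains no nontrivial corner `(x, y), (x, y + z), (x + z, y)`, `z ≠ 0`. -/
def CornerFree {n : ℕ} (A : Finset (V n × V n)) : Prop :=
  ∀ x y z : V n, (x, y) ∈ A → (x, y + z) ∈ A → (x + z, y) ∈ A → z = 0

/-- `L` is the family of all rows, or of all columns, or of all diagonals of `A`. -/
def IsLines {n : ℕ} (A : Finset (V n × V n)) (L : V n → Set (V n)) : Prop :=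
  (∀ s, L s = {y | (s, y) ∈ A}) ∨ (∀ s, L s = {x | (x, s) ∈ A}) ∨
    (∀ s, L s = {y | (s + y, y) ∈ A})

/-- `S` is symmetric with `J` blocks (some of the blocks may be empty): there are a centre `o` and a
partition of the coordinates into `J` blocks such that membership of `y` in `S` only depends on the
numbers of the coordinates in the blocks at which `y` differs from `o`. -/
def BlockSymmetric {n : ℕ} (J : ℕ) (S : Set (V n)) : Prop :=
  ∃ (o : V n) (block : Fin n → Fin J), ∀ y y' : V n,
    (∀ j, #{i | block i = j ∧ y i ≠ o i} = #{i | block i = j ∧ y' i ≠ o i}) → (y ∈ S ↔ y' ∈ S)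

/-- The exact half slice: all `y` which agree with `v` on `F` and which differ from `o` at exactly
half of the coordinates outside `F` in each of the `J` blocks. -/
def HalfSlice {n J : ℕ} (F : Finset (Fin n)) (v o : V n) (block : Fin n → Fin J) : Set (V n) :=
  {y | (∀ i ∈ F, y i = v i) ∧
    ∀ j, 2 * #{i | i ∉ F ∧ block i = j ∧ y i ≠ o i} = #{i | i ∉ F ∧ block i = j}}

/-- The bound: at most `(3.9132)^n + T (3.9731)^n` elements, in particular at most
`(T + 1) 4^((1 - 1/210) n)`. -/
def Small (n T : ℕ) (A : Finset (V n × V n)) : Prop :=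
  (#A : ℝ) ≤ (3.9132 : ℝ) ^ n + T * (3.9731 : ℝ) ^ n ∧
    (#A : ℝ) ≤ (T + 1) * (4 : ℝ) ^ ((1 - 1 / 210 : ℝ) * n)

lemma small_of {n T : ℕ} {A : Finset (V n × V n)}
    (h : (#A : ℝ) ≤ (3.9132 : ℝ) ^ n + T * (3.9731 : ℝ) ^ n) : Small n T A := by
  refine ⟨h, h.trans ?_⟩
  have hb : (3.9731 : ℝ) ≤ (4 : ℝ) ^ (1 - 1 / 210 : ℝ) := by
    have h1 : ((4 : ℝ) ^ (1 - 1 / 210 : ℝ)) ^ 210 = 4 ^ 209 := by
      rw [← Real.rpow_natCast, ← Real.rpow_mul (by norm_num)]
      norm_num
    have h2 : (3.9731 : ℝ) ^ 210 ≤ 4 ^ 209 := by norm_num
    rw [← h1] at h2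
    exact le_of_pow_le_pow_left₀ (by norm_num) (by positivity) h2
  rw [Real.rpow_mul (by norm_num), Real.rpow_natCast]
  have h3 : (3.9731 : ℝ) ^ n ≤ ((4 : ℝ) ^ (1 - 1 / 210 : ℝ)) ^ n :=
    pow_le_pow_left₀ (by norm_num) hb n
  have h4 : (3.9132 : ℝ) ^ n ≤ ((4 : ℝ) ^ (1 - 1 / 210 : ℝ)) ^ n :=
    pow_le_pow_left₀ (by norm_num) (by linarith) n
  have h5 : (0 : ℝ) ≤ T := by positivity
  nlinarith

lemma main {n J T : ℕ} {A : Finset (V n × V n)} (hA : CornerFree A) {L : V n → Set (V n)}
    (hL : IsLines A L) (hJ : 200 * J ≤ n)
    (h : ∀ s, ∃ P : Fin T → Set (V n), (∀ t, BlockSymmetric J (P t)) ∧ L s = ⋃ t, P t) :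
    Small n T A := by
  obtain ⟨A', hA', hcard, hL'⟩ := Pool.Agent.W856.Corner.lines_reduce A hA L hL
  choose P hP hLP using h
  apply small_of
  have := P8H46.BS.main P8H46.BS.split P8H46.BS.rank P8H53.BS.slice P8H53.BS.count n J T hJ A' hA' P hP
    (fun x y => by rw [← hL', hLP x, Set.mem_iUnion])
  rwa [hcard] at this

/-- **Theorem.** Let `A ⊆ (F_2^n)^2` be corner-free and let `L s` be its rows (or its columns, or its
diagonals).

(1) (All corner-free sets.) At most `C(n, f) 4^f (∑_{i ≤ J} C(n, i))^2` of the sets `L s` contain a
nonempty exact half slice with `J` blocks and `|F| = f` fixed coordinates.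

(2) If every `L s` is a union of `T` sets which are symmetric with `J ≤ n / 200` blocks, then
`|A| ≤ 3.9132^n + T 3.9731^n`, and `|A| ≤ (T + 1) 4^((1 - 1/210) n)`.

(3) The same if every `L s` is the set of all `y` such that, for some `t < T`, the numbers of the
elements `i` of the `k` sets `S s t l` with `y i ≠ o s t l i` have a property `Φ s t`, where
`200 * 3 ^ k ≤ n` and the sets of indices, the strings `o s t l` and the properties are arbitrary.

(4) The same if every `L s` is the set of all `y` such that `∑_{i : y i = 1} w s t i ∈ B s t` for some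
`t < T`, where the coefficients `w s t i` are elements of an arbitrary commutative monoid, at most
`n / 200` of them different for given `s`, `t`, and the sets `B s t` are arbitrary. -/
theorem result :
    (∀ (n J f : ℕ) (A : Finset (V n × V n)) (L : V n → Set (V n)), CornerFree A → IsLines A L →
      Set.ncard {s | ∃ (F : Finset (Fin n)) (v o : V n) (block : Fin n → Fin J), #F = f ∧
        (HalfSlice F v o block).Nonempty ∧ HalfSlice F v o block ⊆ L s} ≤
      n.choose f * 4 ^ f * (∑ i ∈ range (J + 1), n.choose i) ^ 2) ∧
    (∀ (n J T : ℕ) (A : Finset (V n × V n)) (L : V n → Set (V n)), CornerFree A → IsLines A L →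
      200 * J ≤ n →
      (∀ s, ∃ P : Fin T → Set (V n), (∀ t, BlockSymmetric J (P t)) ∧ L s = ⋃ t, P t) →
      Small n T A) ∧
    (∀ (n k T : ℕ) (A : Finset (V n × V n)) (L : V n → Set (V n)), CornerFree A → IsLines A L →
      200 * 3 ^ k ≤ n →
      ∀ (S : V n → Fin T → Fin k → Finset (Fin n)) (o : V n → Fin T → Fin k → V n)
        (Φ : V n → Fin T → (Fin k → ℕ) → Prop),
      (∀ s, L s = {y | ∃ t, Φ s t (fun l => #{i ∈ S s t l | y i ≠ o s t l i})}) →
      Small n T A) ∧
    (∀ (n T : ℕ) (A : Finset (V n × V n)) (L : V n → Set (V n)), CornerFree A → IsLines A L →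
      ∀ (M : V n → Fin T → Type) [∀ s t, AddCommMonoid (M s t)] (w : ∀ s t, Fin n → M s t)
        (B : ∀ s t, Set (M s t)), (∀ s t, 200 * (Set.range (w s t)).ncard ≤ n) →
      (∀ s, L s = {y | ∃ t, ∑ i, (if y i = 1 then w s t i else 0) ∈ B s t}) →
      Small n T A) := by
  classical
  refine ⟨?_, fun n J T A L hA hL hJ h => main hA hL hJ h, ?_, ?_⟩
  · intro n J f A L hA hL
    obtain ⟨A', hA', hcard, hL'⟩ := Pool.Agent.W856.Corner.lines_reduce A hA L hL
    set X : Finset (V n) := univ.filter (fun s => ∃ (F : Finset (Fin n)) (v o : V n)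
      (block : Fin n → Fin J), #F = f ∧ (HalfSlice F v o block).Nonempty ∧
        HalfSlice F v o block ⊆ L s) with hX
    have e : {s | ∃ (F : Finset (Fin n)) (v o : V n) (block : Fin n → Fin J), #F = f ∧
        (HalfSlice F v o block).Nonempty ∧ HalfSlice F v o block ⊆ L s} = (X : Set (V n)) := by
      ext s
      simp [hX]
    rw [e, Set.ncard_coe_finset]
    refine P8H46.BS.cls P8H46.BS.split P8H46.BS.rank (J := J) A' hA' X ?_
    intro s hs
    obtain ⟨F, v, o, block, hF, ⟨y, hy⟩, hsub⟩ := (mem_filter.1 hs).2
    refine ⟨F, v, o, block, hF, fun j => ?_, fun y' hy' => ?_⟩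
    · rw [← hy.2 j]
      exact even_two_mul _
    · rw [← hL']
      exact hsub hy'
  · intro n k T A L hA hL hk S o Φ h
    refine main hA hL hk fun s => ⟨fun t => {y | Φ s t (fun l => #{i ∈ S s t l | y i ≠ o s t l i})},
      fun t => P8H53.BS.gates n k (S s t) (o s t) (Φ s t), ?_⟩
    rw [h s]
    ext y
    simp
  · intro n T A L hA hL M _ w B hw h
    refine main (J := n / 200) hA hL (by omega) fun s =>
      ⟨fun t => {y | ∑ i, (if y i = 1 then w s t i else 0) ∈ B s t}, fun t => ?_, ?_⟩
    · refine P8H53.BS.linform n (n / 200) (M s t) (w s t) (B s t) ?_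
      have h1 := hw s t
      have e : Set.range (w s t) = ((univ.image (w s t) : Finset (M s t)) : Set (M s t)) := by
        rw [coe_image, coe_univ, Set.image_univ]
      rw [e, Set.ncard_coe_finset] at h1
      omega
    · rw [h s]
      ext y
      simp

end Pool.Agent.Results.MP_db4732_co.BlockSymmetricLines
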