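import Pool.Agent.P8H93.DL2

/-!
# Dense lines and dense cells of corner-free sets in `(F_2^n)^2`
-/

namespace Pool.Agent.Results.MP_db4732_co.DenseLines

open Finset Module

/-- `F_2^n` -/
abbrev V (n : ℕ) := Fin n → ZMod 2

/-- `A ⊆ (F_2^n)^2` contains no nontrivial corner `(x, y), (x, y + z), (x + z, y)`, `z ≠ 0`. -/
def CornerFree {n : ℕ} (A : Finset (V n × V n)) : Prop :=
  ∀ x y z : V n, z ≠ 0 → ¬ ((x, y) ∈ A ∧ (x, y + z) ∈ A ∧ (x + z, y) ∈ A)

/-- The power-saving bound for the corner-free sets with the property `P`. -/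
def PowerSavingFor (P : ∀ n, Finset (V n × V n) → Prop) : Prop :=
  ∃ C c : ℝ, 0 < C ∧ 0 < c ∧ ∀ n : ℕ, 1 ≤ n → ∀ A : Finset (V n × V n), CornerFree A → P n A →
    (A.card : ℝ) ≤ C * 4 ^ ((1 - c) * (n : ℝ))

/-- The statement asked for in Q1. -/
def PowerSaving : Prop :=
  ∃ C c : ℝ, 0 < C ∧ 0 < c ∧ ∀ n : ℕ, 1 ≤ n → ∀ A : Finset (V n × V n), CornerFree A →
    (A.card : ℝ) ≤ C * 4 ^ ((1 - c) * (n : ℝ))

/-- The rows (`k = 0`), columns (`k = 1`) and diagonals (`k = 2`). -/
def line {n : ℕ} (k : Fin 3) (s : V n) : Set (V n × V n) := {p | ![p.1, p.2, p.1 + p.2] k = s}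

/-- The vectors `(0, w)`, `(w, 0)` and `(w, w)`. -/
def dir {n : ℕ} (k : Fin 3) (w : V n) : V n × V n := ![(0, w), (w, 0), (w, w)] k

/-- The cell of `W` through `p`: the coset of the copy of `W` in the direction of the rows, the
columns or the diagonals. For `W = F_2^n` this is the row, the column or the diagonal of `p`. -/
def cell {n : ℕ} (k : Fin 3) (W : Submodule (ZMod 2) (V n)) (p : V n × V n) :
    Set (V n × V n) := {q | ∃ w ∈ W, q = p + dir k w}

/-- At least `δ |W|` of the `|W|` points of a cell of `W` through `p` are in `A`. -/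
def DenseAt {n : ℕ} (δ : ℝ) (A : Finset (V n × V n)) (W : Submodule (ZMod 2) (V n))
    (p : V n × V n) : Prop :=
  ∃ k, δ * Nat.card W ≤ ((A : Set (V n × V n)) ∩ cell k W p).ncard

/-- The subspace of the vectors whose coordinates outside `S` are zero; its cells are subcubes of
the lines, of dimension `|S|`. -/
def coord {n : ℕ} (S : Finset (Fin n)) : Submodule (ZMod 2) (V n) where
  carrier := {v | ∀ i, i ∉ S → v i = 0}
  add_mem' := fun {a b} ha hb i hi => by
    rw [Pi.add_apply, ha i hi, hb i hi, add_zero]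
  zero_mem' := fun _ _ => rfl
  smul_mem' := fun c a ha i hi => by
    rw [Pi.smul_apply, ha i hi, smul_zero]

section aux

variable {n : ℕ}

lemma two_eq (v : V n) : v + v = 0 := Pool.Agent.P8H93.DL.add_self' v

/-- the symmetries that turn columns and diagonals into rows -/
def phi (k : Fin 3) : V n × V n ≃ V n × V n :=
  ![Equiv.refl _, Equiv.prodComm _ _,
    { toFun := fun p => (p.1 + p.2, p.2)
      invFun := fun p => (p.1 + p.2, p.2)
      left_inv := fun p => by
        ext1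
        · simp [add_assoc, two_eq]
        · rfl
      right_inv := fun p => by
        ext1
        · simp [add_assoc, two_eq]
        · rfl }] k

lemma phi_dir (k : Fin 3) (p : V n × V n) (w : V n) :
    phi k (p + dir k w) = ((phi k p).1, (phi k p).2 + w) := by
  fin_cases k
  · show p + (0, w) = (p.1, p.2 + w)
    ext1 <;> simp
  · show (p + (w, 0)).swap = (p.2, p.1 + w)
    ext1 <;> simp
  · simp only [phi, dir]
    ext1
    · show p.1 + w + (p.2 + w) = p.1 + p.2
      rw [add_add_add_comm, two_eq, add_zero]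
    · rfl

lemma phi_fst (k : Fin 3) (p : V n × V n) : (phi k p).1 = ![p.1, p.2, p.1 + p.2] k := by
  fin_cases k <;> rfl

lemma phi_cf (k : Fin 3) (A : Finset (V n × V n)) (hA : CornerFree A) :
    Pool.Agent.P8H93.DL.CF (A.map (phi k).toEmbedding) := by
  have key : ∀ q, q ∈ A.map (phi k).toEmbedding ↔ (phi k).symm q ∈ A := fun q => by
    rw [mem_map_equiv]
  intro x y z hz ⟨h1, h2, h3⟩
  rw [key] at h1 h2 h3
  fin_cases k
  · exact hA x y z hz ⟨h1, h2, h3⟩
  · exact hA y x z hz ⟨h1, h3, h2⟩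
  · have h1' : (x + y, y) ∈ A := h1
    have h2' : (x + (y + z), y + z) ∈ A := h2
    have h3' : (x + z + y, y) ∈ A := h3
    refine hA (x + z + y) y z hz ⟨h3', ?_, ?_⟩
    · have : x + z + y = x + (y + z) := by abel
      rw [this]; exact h2'
    · have : x + z + y + z = x + y := by
        rw [add_right_comm, add_assoc x z z, two_eq, add_zero]
      rw [this]; exact h1'

lemma card_cell (k : Fin 3) (A : Finset (V n × V n)) (W : Submodule (ZMod 2) (V n))
    (p : V n × V n) :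
    ((A : Set (V n × V n)) ∩ cell k W p).ncard =
      Pool.Agent.P8H93.DL.cellCard (A.map (phi k).toEmbedding) W (phi k p) := by
  classical
  rw [Pool.Agent.P8H93.DL.cellCard, ← Nat.card_coe_set_eq]
  refine (Nat.card_congr (Equiv.ofBijective
    (fun w : {w : W // ((phi k p).1, (phi k p).2 + (w : V n)) ∈ A.map (phi k).toEmbedding} =>
      (⟨p + dir k (w.1 : V n), ?_, ⟨w.1, w.1.2, rfl⟩⟩ :
        ((A : Set (V n × V n)) ∩ cell k W p : Set (V n × V n)))) ⟨?_, ?_⟩)).symm
  · have h := w.2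
    rw [← phi_dir, mem_map_equiv, Equiv.symm_apply_apply] at h
    exact h
  · intro a b hab
    have h1 : p + dir k (a.1 : V n) = p + dir k (b.1 : V n) := congrArg Subtype.val hab
    have h2 := congrArg (fun q => (phi k q).2) h1
    simp only [phi_dir] at h2
    exact Subtype.ext (Subtype.ext (add_left_cancel h2))
  · rintro ⟨q, hq, w, hw, rfl⟩
    refine ⟨⟨⟨w, hw⟩, ?_⟩, rfl⟩
    rw [← phi_dir, mem_map_equiv, Equiv.symm_apply_apply]
    exact hq

lemma card_W (W : Submodule (ZMod 2) (V n)) : Nat.card W = 2 ^ finrank (ZMod 2) W := by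
  have := Module.natCard_eq_pow_finrank (K := ZMod 2) (V := W)
  rwa [Nat.card_zmod] at this

lemma card_V : (Fintype.card (V n) : ℝ) = 2 ^ n := by
  simp [ZMod.card]

lemma dense_dir (u : ℕ) (δ : ℝ) (h : Pool.Agent.P8H93.DL.Small (u + 1) δ)
    (A : Finset (V n × V n)) (hA : CornerFree A) (W : Submodule (ZMod 2) (V n)) (k : Fin 3) :
    ({p | p ∈ A ∧ δ * Nat.card W ≤ ((A : Set (V n × V n)) ∩ cell k W p).ncard}.ncard : ℝ) ≤
      4 * 4 ^ n * (2 : ℝ) ^ (-(finrank (ZMod 2) W : ℝ) / 2 ^ u) := by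
  classical
  have h1 := Pool.Agent.P8H93.DL.cell_points h (A.map (phi k).toEmbedding) (phi_cf k A hA) W
  have h2 : {p | p ∈ A ∧ δ * Nat.card W ≤ ((A : Set (V n × V n)) ∩ cell k W p).ncard}.ncard =
      ((A.map (phi k).toEmbedding : Set (V n × V n)) ∩
        {p | δ * Nat.card W ≤
          Pool.Agent.P8H93.DL.cellCard (A.map (phi k).toEmbedding) W p}).ncard := by
    rw [← Set.ncard_image_of_injective _ (phi k).injective]
    congr 1
    ext q
    constructor
    · rintro ⟨p, ⟨hp, hd⟩, rfl⟩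
      refine ⟨by simpa using hp, ?_⟩
      rw [card_cell] at hd
      exact hd
    · rintro ⟨hq, hd⟩
      rw [mem_coe, mem_map_equiv] at hq
      refine ⟨(phi k).symm q, ⟨hq, ?_⟩, by simp⟩
      rw [card_cell, Equiv.apply_symm_apply]
      exact hd
  rw [h2]
  refine h1.trans (le_of_eq ?_)
  rw [card_V, card_W]
  push_cast
  rw [← pow_mul, mul_comm n 2, pow_mul, ← Real.rpow_natCast 2 (finrank (ZMod 2) W),
    ← Real.rpow_mul (by norm_num)]
  congr 1
  · norm_num
  · congr 1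
    ring

lemma dense_all (u : ℕ) (δ : ℝ) (h : Pool.Agent.P8H93.DL.Small (u + 1) δ)
    (A : Finset (V n × V n)) (hA : CornerFree A) (W : Submodule (ZMod 2) (V n)) :
    ({p | p ∈ A ∧ DenseAt δ A W p}.ncard : ℝ) ≤
      12 * 4 ^ n * (2 : ℝ) ^ (-(finrank (ZMod 2) W : ℝ) / 2 ^ u) := by
  classical
  have hsub : {p | p ∈ A ∧ DenseAt δ A W p} ⊆ ⋃ k : Fin 3,
      {p | p ∈ A ∧ δ * Nat.card W ≤ ((A : Set (V n × V n)) ∩ cell k W p).ncard} := by
    rintro p ⟨hp, k, hk⟩
    exact Set.mem_iUnion.2 ⟨k, hp, hk⟩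
  have h1 : {p | p ∈ A ∧ DenseAt δ A W p}.ncard ≤ ∑ k : Fin 3,
      {p | p ∈ A ∧ δ * Nat.card W ≤ ((A : Set (V n × V n)) ∩ cell k W p).ncard}.ncard :=
    (Set.ncard_le_ncard hsub (Set.toFinite _)).trans (Set.ncard_iUnion_le_of_fintype _)
  calc ({p | p ∈ A ∧ DenseAt δ A W p}.ncard : ℝ)
      ≤ ∑ k : Fin 3, ({p | p ∈ A ∧
          δ * Nat.card W ≤ ((A : Set (V n × V n)) ∩ cell k W p).ncard}.ncard : ℝ) := by
        exact_mod_cast h1
    _ ≤ ∑ _k : Fin 3, 4 * 4 ^ n * (2 : ℝ) ^ (-(finrank (ZMod 2) W : ℝ) / 2 ^ u) :=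
        sum_le_sum fun k _ => dense_dir u δ h A hA W k
    _ = _ := by
        rw [sum_const, card_univ, Fintype.card_fin, nsmul_eq_mul]
        push_cast; ring

lemma cell_top (k : Fin 3) (p : V n × V n) :
    cell k ⊤ p = line k (![p.1, p.2, p.1 + p.2] k) := by
  ext q
  constructor
  · rintro ⟨w, -, rfl⟩
    fin_cases k
    · show p.1 + 0 = p.1
      rw [add_zero]
    · show p.2 + 0 = p.2
      rw [add_zero]
    · show p.1 + w + (p.2 + w) = p.1 + p.2
      rw [add_add_add_comm, two_eq, add_zero]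
  · intro hq
    fin_cases k
    · have h : q.1 = p.1 := hq
      refine ⟨p.2 + q.2, trivial, ?_⟩
      show q = p + (0, p.2 + q.2)
      ext1
      · show q.1 = p.1 + 0
        rw [h, add_zero]
      · show q.2 = p.2 + (p.2 + q.2)
        rw [← add_assoc, two_eq, zero_add]
    · have h : q.2 = p.2 := hq
      refine ⟨p.1 + q.1, trivial, ?_⟩
      show q = p + (p.1 + q.1, 0)
      ext1
      · show q.1 = p.1 + (p.1 + q.1)
        rw [← add_assoc, two_eq, zero_add]
      · show q.2 = p.2 + 0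
        rw [h, add_zero]
    · have h : q.1 + q.2 = p.1 + p.2 := hq
      refine ⟨p.2 + q.2, trivial, ?_⟩
      show q = p + (p.2 + q.2, p.2 + q.2)
      ext1
      · show q.1 = p.1 + (p.2 + q.2)
        rw [← add_assoc, ← h, add_assoc, two_eq, add_zero]
      · show q.2 = p.2 + (p.2 + q.2)
        rw [← add_assoc, two_eq, zero_add]

/-- removal of the points in dense cells -/
lemma removal (u : ℕ) (δ : ℝ) (h : Pool.Agent.P8H93.DL.Small (u + 1) δ)
    (F : ∀ n, Finset (Submodule (ZMod 2) (V n))) (D c : ℝ) (hD : 0 < D) (hc : 0 < c)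
    (hF : ∀ n, ∑ W ∈ F n, 12 * 4 ^ n * (2 : ℝ) ^ (-(finrank (ZMod 2) W : ℝ) / 2 ^ u) ≤
      D * 4 ^ ((1 - c) * (n : ℝ))) :
    PowerSavingFor (fun n A => ∀ p ∈ A, ∃ W ∈ F n, DenseAt δ A W p) ∧
    (PowerSaving ↔ PowerSavingFor (fun n A => ∀ p ∈ A, ∀ W ∈ F n, ¬ DenseAt δ A W p)) := by
  classical
  have key : ∀ (n : ℕ) (A : Finset (V n × V n)), CornerFree A →
      ((A.filter fun p => ∃ W ∈ F n, DenseAt δ A W p).card : ℝ) ≤
        D * 4 ^ ((1 - c) * (n : ℝ)) := by
    intro n A hA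
    refine le_trans ?_ (hF n)
    have hsub : (A.filter fun p => ∃ W ∈ F n, DenseAt δ A W p) ⊆
        (F n).biUnion fun W => A.filter fun p => DenseAt δ A W p := by
      intro p hp
      rw [mem_filter] at hp
      obtain ⟨hp, W, hW, hd⟩ := hp
      exact mem_biUnion.2 ⟨W, hW, mem_filter.2 ⟨hp, hd⟩⟩
    have h1 := (card_le_card hsub).trans card_biUnion_le
    calc ((A.filter fun p => ∃ W ∈ F n, DenseAt δ A W p).card : ℝ)
        ≤ ∑ W ∈ F n, ((A.filter fun p => DenseAt δ A W p).card : ℝ) := by exact_mod_cast h1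
      _ ≤ _ := by
          refine sum_le_sum fun W _ => ?_
          have h2 := dense_all u δ h A hA W
          have h3 : {p | p ∈ A ∧ DenseAt δ A W p} =
              ((A.filter fun p => DenseAt δ A W p : Finset (V n × V n)) : Set (V n × V n)) := by
            ext p; simp
          rw [h3, Set.ncard_coe_finset] at h2
          exact h2
  refine ⟨⟨D, c, hD, hc, fun n _ A hA hP => ?_⟩, ?_, ?_⟩
  · have h1 := key n A hA
    rwa [filter_true_of_mem hP] at h1
  · rintro ⟨C, c', hC, hc', h'⟩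
    exact ⟨C, c', hC, hc', fun n hn A hA _ => h' n hn A hA⟩
  · rintro ⟨C, c', hC, hc', h'⟩
    refine ⟨C + D, min c c', by positivity, lt_min hc hc', fun n hn A hA => ?_⟩
    set A' := A.filter fun p => ¬ ∃ W ∈ F n, DenseAt δ A W p with hA'
    have hsub : A' ⊆ A := filter_subset _ _
    have hcf : CornerFree A' := fun x y z hz ⟨h1, h2, h3⟩ =>
      hA x y z hz ⟨hsub h1, hsub h2, hsub h3⟩
    have hsp : ∀ p ∈ A', ∀ W ∈ F n, ¬ DenseAt δ A' W p := by
      rintro p hp W hW ⟨k, hk⟩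
      rw [hA', mem_filter] at hp
      refine hp.2 ⟨W, hW, k, hk.trans ?_⟩
      have : ((A' : Set (V n × V n)) ∩ cell k W p).ncard ≤
          ((A : Set (V n × V n)) ∩ cell k W p).ncard :=
        Set.ncard_le_ncard (Set.inter_subset_inter_left _ (by exact_mod_cast hsub))
          (Set.toFinite _)
      exact_mod_cast this
    have h1 := h' n hn A' hcf hsp
    have h2 := key n A hA
    have h3 : (A.card : ℝ) = (A.filter fun p => ∃ W ∈ F n, DenseAt δ A W p).card + A'.card := by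
      exact_mod_cast (card_filter_add_card_filter_not (s := A)
        (fun p => ∃ W ∈ F n, DenseAt δ A W p)).symm
    have hmono : ∀ c₁ : ℝ, min c c' ≤ c₁ →
        (4 : ℝ) ^ ((1 - c₁) * (n : ℝ)) ≤ 4 ^ ((1 - min c c') * (n : ℝ)) := by
      intro c₁ h₁
      refine Real.rpow_le_rpow_of_exponent_le (by norm_num) ?_
      exact mul_le_mul_of_nonneg_right (by linarith) (Nat.cast_nonneg n)
    have h4 := hmono c (min_le_left _ _)
    have h5 := hmono c' (min_le_right _ _)
    rw [h3]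
    nlinarith

lemma finrank_coord (S : Finset (Fin n)) : S.card ≤ finrank (ZMod 2) (coord S) := by
  classical
  have h : 2 ^ S.card ≤ Nat.card (coord S) := by
    have h1 : Nat.card (S → ZMod 2) = 2 ^ S.card := by
      rw [Nat.card_eq_fintype_card]; simp [ZMod.card]
    rw [← h1]
    refine Nat.card_le_card_of_injective
      (fun f : S → ZMod 2 => (⟨fun i => if hi : i ∈ S then f ⟨i, hi⟩ else 0, fun i hi => by
        simp [hi]⟩ : coord S)) ?_
    intro f g hfg
    funext i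
    have := congrFun (congrArg Subtype.val hfg) i.1
    simpa [i.2] using this
  rw [card_W] at h
  exact (Nat.pow_le_pow_iff_right (by norm_num)).1 h

lemma card_line (k : Fin 3) (A : Finset (V n × V n)) (s : V n) :
    ((A : Set (V n × V n)) ∩ line k s).ncard =
      Pool.Agent.P8H93.DL.rowCard (A.map (phi k).toEmbedding) s := by
  classical
  rw [Pool.Agent.P8H93.DL.rowCard, ← Nat.card_coe_set_eq, ← Fintype.card_subtype,
    ← Nat.card_eq_fintype_card]
  refine (Nat.card_congr (Equiv.ofBijective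
    (fun y : {y : V n // (s, y) ∈ A.map (phi k).toEmbedding} =>
      (⟨(phi k).symm (s, y.1), ?_, ?_⟩ :
        ((A : Set (V n × V n)) ∩ line k s : Set (V n × V n)))) ⟨?_, ?_⟩)).symm
  · have h := y.2
    rw [mem_map_equiv] at h
    exact h
  · show ![((phi k).symm (s, y.1)).1, ((phi k).symm (s, y.1)).2,
      ((phi k).symm (s, y.1)).1 + ((phi k).symm (s, y.1)).2] k = s
    rw [← phi_fst, Equiv.apply_symm_apply]
  · intro a b hab
    have h1 : (phi k).symm (s, a.1) = (phi k).symm (s, b.1) := congrArg Subtype.val hab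
    have h2 := (phi k).symm.injective h1
    exact Subtype.ext (congrArg Prod.snd h2)
  · rintro ⟨q, hq, hl⟩
    have hl' : (phi k q).1 = s := by rw [phi_fst]; exact hl
    refine ⟨⟨(phi k q).2, ?_⟩, ?_⟩
    · rw [mem_map_equiv, ← hl']
      simpa using hq
    · refine Subtype.ext ?_
      show (phi k).symm (s, (phi k q).2) = q
      rw [← hl']
      simp

lemma lines_bound (u : ℕ) (δ : ℝ) (h : Pool.Agent.P8H93.DL.Small (u + 1) δ)
    (A : Finset (V n × V n)) (hA : CornerFree A) (k : Fin 3) :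
    ({s | δ * 2 ^ n ≤ ((A : Set (V n × V n)) ∩ line k s).ncard}.ncard : ℝ) ≤
      4 * (2 : ℝ) ^ ((1 - 1 / 2 ^ u) * (n : ℝ)) := by
  classical
  have h1 := Pool.Agent.P8H93.DL.dense_rows h (A.map (phi k).toEmbedding) (phi_cf k A hA)
  rw [card_V] at h1
  have h2 : {s | δ * 2 ^ n ≤ ((A : Set (V n × V n)) ∩ line k s).ncard} =
      ((univ.filter fun x => δ * 2 ^ n ≤
        (Pool.Agent.P8H93.DL.rowCard (A.map (phi k).toEmbedding) x : ℝ) : Finset (V n)) :
          Set (V n)) := by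
    ext s
    simp [card_line]
  rw [h2, Set.ncard_coe_finset]
  refine h1.trans (le_of_eq ?_)
  rw [← Real.rpow_natCast 2 n, ← Real.rpow_mul (by norm_num)]
  congr 2
  ring

lemma family_sum (u : ℕ) (ε K : ℝ) (F : ∀ n, Finset (Submodule (ZMod 2) (V n)))
    (_hK : 0 < K) (hF : ∀ n, ((F n).card : ℝ) ≤ K * 2 ^ (ε / 2 ^ (u + 1) * (n : ℝ)))
    (hd : ∀ n, ∀ W ∈ F n, ε * n ≤ finrank (ZMod 2) W) (n : ℕ) :
    ∑ W ∈ F n, 12 * 4 ^ n * (2 : ℝ) ^ (-(finrank (ZMod 2) W : ℝ) / 2 ^ u) ≤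
      (12 * K) * 4 ^ ((1 - ε / 2 ^ (u + 2)) * (n : ℝ)) := by
  have h1 : ∀ W ∈ F n, 12 * 4 ^ n * (2 : ℝ) ^ (-(finrank (ZMod 2) W : ℝ) / 2 ^ u) ≤
      12 * 4 ^ n * (2 : ℝ) ^ (-(ε * n) / 2 ^ u) := by
    intro W hW
    refine mul_le_mul_of_nonneg_left ?_ (by positivity)
    refine Real.rpow_le_rpow_of_exponent_le (by norm_num) ?_
    have := hd n W hW
    gcongr
  refine (sum_le_sum h1).trans ?_
  rw [sum_const, nsmul_eq_mul]
  have h2 : (4 : ℝ) ^ n = 2 ^ ((2 : ℝ) * n) := by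
    rw [Real.rpow_mul (by norm_num), Real.rpow_natCast]
    norm_num
  have h4 : (4 : ℝ) = 2 ^ (2 : ℝ) := by norm_num
  calc ((F n).card : ℝ) * (12 * 4 ^ n * (2 : ℝ) ^ (-(ε * n) / 2 ^ u))
      ≤ (K * 2 ^ (ε / 2 ^ (u + 1) * (n : ℝ))) * (12 * 4 ^ n * (2 : ℝ) ^ (-(ε * n) / 2 ^ u)) :=
        mul_le_mul_of_nonneg_right (hF n) (by positivity)
    _ = (12 * K) * (2 ^ (ε / 2 ^ (u + 1) * (n : ℝ)) * 2 ^ ((2 : ℝ) * n) *
          (2 : ℝ) ^ (-(ε * n) / 2 ^ u)) := by rw [h2]; ring
    _ = (12 * K) * 4 ^ ((1 - ε / 2 ^ (u + 2)) * (n : ℝ)) := by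
        rw [← Real.rpow_add (by norm_num), ← Real.rpow_add (by norm_num), h4,
          ← Real.rpow_mul (by norm_num)]
        congr 2
        rw [pow_succ, pow_succ]
        field_simp
        ring

lemma choose_eta (c : ℝ) (hc : 0 < c) : ∃ η : ℝ, 0 < η ∧ η ≤ 1 / 2 ∧ ∀ n : ℕ,
    (((univ : Finset (Finset (Fin n))).filter fun S => (1 - η) * n ≤ (S.card : ℝ)).card : ℝ) ≤
      2 ^ (c * (n : ℝ)) := by
  have h2 : (1 : ℝ) < 2 ^ (c / 2) := Real.one_lt_rpow (by norm_num) (by positivity)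
  set x : ℝ := min (1 / 2) ((2 : ℝ) ^ (c / 2) - 1) with hx
  have hx0 : 0 < x := lt_min (by norm_num) (by linarith)
  have hx1 : x ≤ 1 / 2 := min_le_left _ _
  have hx2 : 1 + x ≤ 2 ^ (c / 2) := by
    have := min_le_right (1 / 2) ((2 : ℝ) ^ (c / 2) - 1)
    rw [← hx] at this
    linarith
  have hlog : Real.log x < 0 := Real.log_neg hx0 (by linarith)
  have hl2 : 0 < Real.log 2 := Real.log_pos (by norm_num)
  set η : ℝ := min (1 / 2) (c / 2 * Real.log 2 / (-Real.log x)) with hη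
  have hη0 : 0 < η := lt_min (by norm_num) (by
    have : 0 < -Real.log x := by linarith
    positivity)
  have hη1 : η ≤ 1 / 2 := min_le_left _ _
  have hη2 : η * (-Real.log x) ≤ c / 2 * Real.log 2 := by
    have h3 := min_le_right (1 / 2) (c / 2 * Real.log 2 / (-Real.log x))
    rw [← hη] at h3
    rwa [le_div_iff₀ (by linarith)] at h3
  refine ⟨η, hη0, hη1, fun n => ?_⟩
  set F := (univ : Finset (Finset (Fin n))).filter fun S => (1 - η) * n ≤ (S.card : ℝ) with hF
  have h3 : (F.card : ℝ) * x ^ (η * n) ≤ (1 + x) ^ n := by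
    have e1 : (1 + x) ^ n = ∑ S : Finset (Fin n), 1 ^ S.card * x ^ (n - S.card) := by
      have := Fintype.sum_pow_mul_eq_add_pow (Fin n) (1 : ℝ) x
      rw [Fintype.card_fin] at this
      exact this.symm
    rw [e1]
    calc (F.card : ℝ) * x ^ (η * n) = ∑ _S ∈ F, x ^ (η * n) := by
          rw [sum_const, nsmul_eq_mul]
      _ ≤ ∑ S ∈ F, 1 ^ S.card * x ^ (n - S.card) := by
          refine sum_le_sum fun S hS => ?_
          rw [hF, mem_filter] at hS
          have hle : S.card ≤ n := by simpa using card_le_univ S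
          rw [one_pow, one_mul, ← Real.rpow_natCast]
          refine Real.rpow_le_rpow_of_exponent_ge hx0 (by linarith) ?_
          rw [Nat.cast_sub hle]
          have := hS.2
          linarith
      _ ≤ ∑ S : Finset (Fin n), 1 ^ S.card * x ^ (n - S.card) :=
          sum_le_sum_of_subset_of_nonneg (filter_subset _ _) fun S _ _ => by positivity
  have h4 : (1 + x) ^ n ≤ 2 ^ (c / 2 * n) := by
    rw [Real.rpow_mul (by norm_num), Real.rpow_natCast]
    exact pow_le_pow_left₀ (by linarith) hx2 n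
  have h5 : (2 : ℝ) ^ (-(c / 2 * n)) ≤ x ^ (η * n) := by
    rw [Real.rpow_def_of_pos (by norm_num), Real.rpow_def_of_pos hx0]
    refine Real.exp_le_exp.2 ?_
    have hn : (0 : ℝ) ≤ n := Nat.cast_nonneg n
    nlinarith
  have h6 : (F.card : ℝ) * 2 ^ (-(c / 2 * n)) ≤ 2 ^ (c / 2 * n) :=
    (mul_le_mul_of_nonneg_left h5 (Nat.cast_nonneg _)).trans (h3.trans h4)
  have h7 : (2 : ℝ) ^ (-(c / 2 * n)) * 2 ^ (c / 2 * n) = 1 := by
    rw [← Real.rpow_add (by norm_num)]; simp
  have h8 : (2 : ℝ) ^ (c * (n : ℝ)) = 2 ^ (c / 2 * n) * 2 ^ (c / 2 * n) := by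
    rw [← Real.rpow_add (by norm_num)]; congr 1; ring
  calc (F.card : ℝ) = (F.card : ℝ) * 2 ^ (-(c / 2 * n)) * 2 ^ (c / 2 * n) := by
        rw [mul_assoc, h7, mul_one]
    _ ≤ 2 ^ (c / 2 * n) * 2 ^ (c / 2 * n) :=
        mul_le_mul_of_nonneg_right h6 (by positivity)
    _ = _ := h8.symm

end aux

/-- Let `A ⊆ (F_2^n)^2` be corner-free.
(1) If corner-free sets in `(F_2^(u+1))^2` have density less than `δ`, then for every subspace `W` of
`F_2^n` of dimension `w` at most `12 * 4^n * 2^(-w / 2^u)` points of `A` lie in a `δ`-dense cell of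
`W`, and at most `4 * 2^((1 - 1/2^u) n)` rows contain at least `δ 2^n` points of `A`; the same for
columns and diagonals.
(2) Such a `u` exists for every `δ > 0`.
(3) So for all `δ, ε > 0` there is `c > 0` such that for every system of at most `K 2^(c n)` subspaces
of dimension at least `ε n`, for each `n`, the power-saving bound holds for the corner-free sets all of
whose points lie in `δ`-dense cells of the system, and Q1 is equivalent to its restriction to
the corner-free sets without points in `δ`-dense cells of the system.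
(4) For every `δ > 0` there is `η > 0` such that the same is true for the system of all
subcubes of dimension at least `(1 - η) n` of the rows, columns and diagonals (which contains the
lines). -/
theorem result :
    (∀ (u : ℕ) (δ : ℝ),
      (∀ B : Finset (V (u + 1) × V (u + 1)), CornerFree B → (B.card : ℝ) < δ * 4 ^ (u + 1)) →
      ∀ (n : ℕ) (A : Finset (V n × V n)), CornerFree A →
        (∀ W : Submodule (ZMod 2) (V n), ({p | p ∈ A ∧ DenseAt δ A W p}.ncard : ℝ) ≤
          12 * 4 ^ n * (2 : ℝ) ^ (-(finrank (ZMod 2) W : ℝ) / 2 ^ u)) ∧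
        ∀ k : Fin 3, ({s | δ * 2 ^ n ≤ ((A : Set (V n × V n)) ∩ line k s).ncard}.ncard : ℝ) ≤
          4 * (2 : ℝ) ^ ((1 - 1 / 2 ^ u) * (n : ℝ))) ∧
    (∀ δ : ℝ, 0 < δ → ∃ u : ℕ, ∀ B : Finset (V (u + 1) × V (u + 1)), CornerFree B →
      (B.card : ℝ) < δ * 4 ^ (u + 1)) ∧
    (∀ δ ε : ℝ, 0 < δ → 0 < ε → ∃ c : ℝ, 0 < c ∧ ∀ (K : ℝ)
      (F : ∀ n, Finset (Submodule (ZMod 2) (V n))), 0 < K →
      (∀ n, ((F n).card : ℝ) ≤ K * 2 ^ (c * (n : ℝ))) →
      (∀ n, ∀ W ∈ F n, ε * n ≤ finrank (ZMod 2) W) →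
        PowerSavingFor (fun n A => ∀ p ∈ A, ∃ W ∈ F n, DenseAt δ A W p) ∧
        (PowerSaving ↔ PowerSavingFor (fun n A => ∀ p ∈ A, ∀ W ∈ F n, ¬ DenseAt δ A W p))) ∧
    (∀ δ : ℝ, 0 < δ → ∃ η : ℝ, 0 < η ∧
        PowerSavingFor (fun n A => ∀ p ∈ A, ∃ S : Finset (Fin n), (1 - η) * n ≤ (S.card : ℝ) ∧
          DenseAt δ A (coord S) p) ∧
        (PowerSaving ↔ PowerSavingFor (fun n A => ∀ p ∈ A, ∀ S : Finset (Fin n),
          (1 - η) * n ≤ (S.card : ℝ) → ¬ DenseAt δ A (coord S) p))) := by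
  classical
  refine ⟨fun u δ h n A hA => ⟨fun W => dense_all u δ h A hA W, fun k => lines_bound u δ h A hA k⟩,
    fun δ hδ => Pool.Agent.P8H93.DL.exists_small δ hδ, ?_, ?_⟩
  · intro δ ε hδ hε
    obtain ⟨u, hu⟩ := Pool.Agent.P8H93.DL.exists_small δ hδ
    refine ⟨ε / 2 ^ (u + 1), by positivity, fun K F hK hF hd => ?_⟩
    exact removal u δ hu F (12 * K) (ε / 2 ^ (u + 2)) (by positivity) (by positivity)
      (family_sum u ε K F hK hF hd)
  · intro δ hδ
    obtain ⟨u, hu⟩ := Pool.Agent.P8H93.DL.exists_small δ hδ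
    obtain ⟨η, hη0, hη1, hη⟩ := choose_eta ((1 / 2) / 2 ^ (u + 1)) (by positivity)
    let F : ∀ n, Finset (Submodule (ZMod 2) (V n)) := fun n =>
      ((univ : Finset (Finset (Fin n))).filter fun S => (1 - η) * n ≤ (S.card : ℝ)).image coord
    have hFc : ∀ n, ((F n).card : ℝ) ≤ 1 * 2 ^ ((1 / 2) / 2 ^ (u + 1) * (n : ℝ)) := by
      intro n
      rw [one_mul]
      refine le_trans ?_ (hη n)
      exact_mod_cast card_image_le
    have hFd : ∀ n, ∀ W ∈ F n, (1 / 2 : ℝ) * n ≤ finrank (ZMod 2) W := by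
      intro n W hW
      obtain ⟨S, hS, rfl⟩ := mem_image.1 hW
      rw [mem_filter] at hS
      have h1 : (S.card : ℝ) ≤ finrank (ZMod 2) (coord S) := by exact_mod_cast finrank_coord S
      have h2 : (0 : ℝ) ≤ n := Nat.cast_nonneg n
      nlinarith [hS.2]
    have key := removal u δ hu F (12 * 1) ((1 / 2) / 2 ^ (u + 2)) (by positivity) (by positivity)
      (family_sum u (1 / 2) 1 F one_pos hFc hFd)
    have e1 : (fun (n : ℕ) (A : Finset (V n × V n)) => ∀ p ∈ A, ∃ S : Finset (Fin n),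
        (1 - η) * n ≤ (S.card : ℝ) ∧ DenseAt δ A (coord S) p) =
        fun n A => ∀ p ∈ A, ∃ W ∈ F n, DenseAt δ A W p := by
      funext n A
      refine propext (forall₂_congr fun p _ => ?_)
      constructor
      · rintro ⟨S, hS, hd⟩
        exact ⟨coord S, mem_image.2 ⟨S, by simpa using hS, rfl⟩, hd⟩
      · rintro ⟨W, hW, hd⟩
        obtain ⟨S, hS, rfl⟩ := mem_image.1 hW
        exact ⟨S, (mem_filter.1 hS).2, hd⟩
    have e2 : (fun (n : ℕ) (A : Finset (V n × V n)) => ∀ p ∈ A, ∀ S : Finset (Fin n),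
        (1 - η) * n ≤ (S.card : ℝ) → ¬ DenseAt δ A (coord S) p) =
        fun n A => ∀ p ∈ A, ∀ W ∈ F n, ¬ DenseAt δ A W p := by
      funext n A
      refine propext (forall₂_congr fun p _ => ?_)
      constructor
      · intro h W hW
        obtain ⟨S, hS, rfl⟩ := mem_image.1 hW
        exact h S (mem_filter.1 hS).2
      · intro h S hS
        exact h (coord S) (mem_image.2 ⟨S, by simpa using hS, rfl⟩)
    refine ⟨η, hη0, ?_, ?_⟩
    · rw [e1]; exact key.1
    · rw [e2]; exact key.2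

end Pool.Agent.Results.MP_db4732_co.DenseLines
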