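import Pool.Agent.P8H46.BS.Sub
import Pool.Agent.P8H46.BS.Code
import Pool.Agent.P8H46.BS.Eq
import Pool.Agent.P8H46.BS.Plot
import Pool.Agent.P8H46.BS.Ramsey
import Pool.Agent.P8H46.BS.Gv
import Pool.Agent.P8H46.BS.Pack
import Pool.Agent.P8H46.BS.Rlow
import Pool.Agent.P8H46.BS.Mult
import Pool.Agent.P8H46.BS.Rup
import Pool.Agent.P8H46.BS.Greedy
import Pool.Agent.P8H46.BS.Trick
import Pool.Agent.W856.Corner4

/-!
# Hamming spheres in the lines of corner-free sets in `(F_2^n)^2`

How many rows (or columns, or diagonals) of a corner-free set can contain a large Hamming sphere or a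
large Hamming ball? There is a sharp threshold at the radius `n / 4`: for fixed `ε > 0` only boundedly
many rows of a corner-free set contain a ball of radius `≥ (1/4 + ε) n`, while exponentially many rows
may contain balls of radius `≥ (1/4 - ε) n`. For spheres the number is bounded for every fixed radius
between `(1/4 + ε) n` and `(3/4 - ε) n`, and there are corner-free sets which have for every radius `t`
a row which is a sphere of radius `t`.

As a consequence, the corner-free sets whose rows are radial (membership in a row only depends on the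
distance from a centre, which may be a different one for every row) have at most `C 2.96^n` elements,
and there are such sets with at least `c 2.5^n` elements. So they are exponentially smaller than the
largest corner-free sets, which have at least `3.458^n` elements. Their largest size is determined,
up to a factor `8 n`, by a packing problem in `(F_2^n)^2`. There is also a power-saving bound
for rows which are unions of few intersections of a subcube and a radial set.

Proof. Let the rows `x`, `x'` contain the spheres of radius `t` with the centres `o`, `o'`. A corner is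
given by a point `y` at distance `t` from the three points `o`, `o + x + x'` and `o'`. Such a point
exists if the mutual distances of the three points are even and at most `2 min(t, n - t)`. So for the
rows of one parity class at least one of the distances of `x, x'`, of `o, o'` and of `x + o, x' + o'` is
larger than `2 min(t, n - t)`. If `t` is in the middle range, Ramsey's theorem and Plotkin's bound
show that there are boundedly many such rows; and for every `t ≤ n / 2` the sphere packing bound for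
the pairs `(x, o)` in the region of all `(a, b)` with `|a|, |b|, |a + b| ≤ t` gives an upper bound. The
constructions use the Gilbert-Varshamov bound and a greedy choice of the centres.

Proof by helper 46 (mathematics, assembly), helper 75 (packing and counting lemmas), helper 76
(equidistant points, Plotkin, Ramsey, Gilbert-Varshamov).
-/

set_option autoImplicit false

namespace Pool.Agent.Results.MP_db4732_co.HammingSpheres

open Finset

/-- `F_2^n` -/
abbrev V (n : ℕ) := Fin n → ZMod 2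

/-- `A ⊆ (F_2^n)^2` contains no nontrivial corner `(x, y), (x, y + z), (x + z, y)`, `z ≠ 0`. -/
def CornerFree {n : ℕ} (A : Finset (V n × V n)) : Prop :=
  ∀ x y z : V n, (x, y) ∈ A → (x, y + z) ∈ A → (x + z, y) ∈ A → z = 0

/-- `L` is the family of all rows, or of all columns, or of all diagonals of `A`. -/
def IsLines {n : ℕ} (A : Finset (V n × V n)) (L : V n → Set (V n)) : Prop :=
  (∀ s, L s = {y | (s, y) ∈ A}) ∨ (∀ s, L s = {x | (x, s) ∈ A}) ∨
    (∀ s, L s = {y | (s + y, y) ∈ A})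

/-- The ball of radius `t` around `o`. -/
def Ball {n : ℕ} (o : V n) (t : ℕ) : Set (V n) := {y | #{i | y i ≠ o i} ≤ t}

/-- A sphere in a subcube: all `y` which agree with `v` on `F` and which differ from `o` at exactly
`t` coordinates outside `F`. For `F = ∅` this is the sphere of radius `t` around `o`. -/
def Sphere {n : ℕ} (F : Finset (Fin n)) (v o : V n) (t : ℕ) : Set (V n) :=
  {y | (∀ i ∈ F, y i = v i) ∧ #{i | i ∉ F ∧ y i ≠ o i} = t}

/-- `S` is radial: the set of all points whose distance from a centre `o` is in a set `D`. -/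
def Radial {n : ℕ} (S : Set (V n)) : Prop :=
  ∃ (o : V n) (D : Set ℕ), S = {y | #{i | y i ≠ o i} ∈ D}

/-- `S` is the intersection of a subcube and a radial set. -/
def SubcubeRadial {n : ℕ} (S : Set (V n)) : Prop :=
  ∃ (F : Finset (Fin n)) (v o : V n) (D : Set ℕ),
    S = {y | (∀ i ∈ F, y i = v i) ∧ #{i | y i ≠ o i} ∈ D}

/-- A set `X` with centres `o x` is a packing for the radius `t`: for all `x ≠ x'` in `X` at least
one of the distances of `x, x'`, of `o x, o x'` and of `x + o x, x' + o x'` is larger than `2 t`. -/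
def Packing {n : ℕ} (t : ℕ) (X : Finset (V n)) (o : V n → V n) : Prop :=
  ∀ x ∈ X, ∀ x' ∈ X, x ≠ x' → 2 * t < #{i | x i ≠ x' i} ∨ 2 * t < #{i | o x i ≠ o x' i} ∨
    2 * t < #{i | (x + o x) i ≠ (x' + o x') i}

/-- The largest size of a packing for the radius `t`. -/
noncomputable def M (n t : ℕ) : ℕ :=
  sSup {m | ∃ (X : Finset (V n)) (o : V n → V n), Packing t X o ∧ #X = m}

/-- The largest size of a corner-free set all of whose rows are radial. -/
noncomputable def rad (n : ℕ) : ℕ :=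
  sSup {m | ∃ A : Finset (V n × V n), CornerFree A ∧ (∀ x, Radial {y | (x, y) ∈ A}) ∧ #A = m}

open P8H46.BS (wt CF)

lemma pack_iff {n : ℕ} (t : ℕ) (X : Finset (V n)) (o : V n → V n) :
    Packing t X o ↔ P8H46.BS.Pack t X o := by
  unfold Packing P8H46.BS.Pack wt
  constructor
  · intro h x hx x' hx' hne hh
    have := h x hx x' hx' hne
    omega
  · intro h x hx x' hx' hne
    by_contra hcon
    push Not at hcon
    exact h x hx x' hx' hne hcon

lemma le_M {n t : ℕ} {X : Finset (V n)} {o : V n → V n} (h : Packing t X o) : #X ≤ M n t := by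
  refine le_csSup ⟨Fintype.card (V n), ?_⟩ ⟨X, o, h, rfl⟩
  rintro m ⟨X, o, -, rfl⟩
  exact card_le_univ X

lemma M_attained (n t : ℕ) : ∃ (X : Finset (V n)) (o : V n → V n), Packing t X o ∧ #X = M n t := by
  refine Nat.sSup_mem (s := {m | ∃ (X : Finset (V n)) (o : V n → V n), Packing t X o ∧ #X = m})
    ⟨0, ∅, fun _ => 0, ?_, rfl⟩ ⟨Fintype.card (V n), ?_⟩
  · intro x hx
    simp at hx
  · rintro m ⟨X, o, -, rfl⟩
    exact card_le_univ X

lemma le_rad {n : ℕ} {A : Finset (V n × V n)} (h : CornerFree A)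
    (h2 : ∀ x, Radial {y | (x, y) ∈ A}) : #A ≤ rad n := by
  refine le_csSup ⟨Fintype.card (V n × V n), ?_⟩ ⟨A, h, h2, rfl⟩
  rintro m ⟨A, -, -, rfl⟩
  exact card_le_univ A

lemma rad_attained (n : ℕ) : ∃ A : Finset (V n × V n), CornerFree A ∧
    (∀ x, Radial {y | (x, y) ∈ A}) ∧ #A = rad n := by
  refine Nat.sSup_mem (s := {m | ∃ A : Finset (V n × V n), CornerFree A ∧
    (∀ x, Radial {y | (x, y) ∈ A}) ∧ #A = m}) ⟨0, ∅, ?_, ?_, rfl⟩
    ⟨Fintype.card (V n × V n), ?_⟩
  · intro x y z h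
    simp at h
  · intro x
    exact ⟨0, ∅, by simp⟩
  · rintro m ⟨A, -, -, rfl⟩
    exact card_le_univ A

lemma wt_out {n : ℕ} (F : Finset (Fin n)) (y o : V n) :
    wt (univ.filter (fun i => i ∉ F)) y o = #{i | i ∉ F ∧ y i ≠ o i} := by
  unfold wt
  rw [filter_filter]

/-- If `S` is the intersection of a subcube and a radial set, then the distance outside `F` decides. -/
lemma subRad_of {n : ℕ} {S : Set (V n)} (h : SubcubeRadial S) : P8H46.BS.SubRad S := by
  classical
  obtain ⟨F, v, o, D, rfl⟩ := h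
  refine ⟨F, v, o, {r | r + #{i ∈ F | v i ≠ o i} ∈ D}, ?_⟩
  ext y
  simp only [Set.mem_ofPred_eq]
  refine and_congr_right fun hy => ?_
  have e : #{i | y i ≠ o i} = wt (univ.filter (fun i => i ∉ F)) y o + #{i ∈ F | v i ≠ o i} := by
    rw [wt_out]
    have h1 := card_filter_add_card_filter_not (s := univ.filter (fun i => y i ≠ o i))
      (fun i => i ∉ F)
    rw [filter_filter, filter_filter] at h1
    rw [← h1]
    congr 1
    · congr 1
      ext i
      simp only [mem_filter, mem_univ, true_and]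
      tauto
    · congr 1
      ext i
      simp only [mem_filter, mem_univ, true_and, not_not]
      constructor
      · rintro ⟨h2, h3⟩
        exact ⟨h3, by rwa [← hy i h3]⟩
      · rintro ⟨h2, h3⟩
        exact ⟨by rwa [hy i h2], h2⟩
  rw [e]

lemma mid {n : ℕ} {A : Finset (V n × V n)} (hA : CF A) (L : V n → Set (V n))
    (hL : ∀ x, L x = {y | (x, y) ∈ A}) (ε : ℝ) (hε : 0 < ε) (k t : ℕ) (hk : k ≤ n)
    (h1 : (1 / 4 + ε) * ((n : ℝ) - k) ≤ t) (h2 : (t : ℝ) ≤ (3 / 4 - ε) * ((n : ℝ) - k)) :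
    Set.ncard {s | ∃ (F : Finset (Fin n)) (v o : V n), #F = k ∧ Sphere F v o t ⊆ L s} ≤
      4 * 27 ^ (⌊1 / (4 * ε)⌋₊ + 1) * (n.choose k * 4 ^ k) := by
  classical
  set X : Finset (V n) := univ.filter (fun s => ∃ (F : Finset (Fin n)) (v o : V n), #F = k ∧
    Sphere F v o t ⊆ L s) with hX
  have e : {s | ∃ (F : Finset (Fin n)) (v o : V n), #F = k ∧ Sphere F v o t ⊆ L s} =
      (X : Set (V n)) := by
    ext s
    simp [hX]
  rw [e, Set.ncard_coe_finset]
  have h3 := P8H46.BS.mid_rows P8H46.BS.eq P8H46.BS.plot P8H46.BS.ramsey hA ε hε k t hk h1 h2 X ?_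
  · refine h3.trans (le_of_eq ?_)
    ring
  · intro x hx
    obtain ⟨F, v, o, hF, hs⟩ := (mem_filter.1 hx).2
    refine ⟨F, v, o, hF, fun y hy1 hy2 => ?_⟩
    have : y ∈ L x := hs ⟨hy1, by rwa [← wt_out]⟩
    rwa [hL] at this

lemma ball_bound {n : ℕ} {A : Finset (V n × V n)} (hA : CF A) (L : V n → Set (V n))
    (hL : ∀ x, L x = {y | (x, y) ∈ A}) (ε : ℝ) (hε : 0 < ε) (hε' : ε ≤ 1 / 8) :
    Set.ncard {s | ∃ (o : V n) (t : ℕ), (1 / 4 + ε) * n ≤ t ∧ Ball o t ⊆ L s} ≤
      4 * 27 ^ (⌊1 / (4 * ε)⌋₊ + 1) := by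
  classical
  rcases lt_or_ge n 4 with hn | hn
  · have h1 : Set.ncard {s | ∃ (o : V n) (t : ℕ), (1 / 4 + ε) * n ≤ t ∧ Ball o t ⊆ L s} ≤
        Fintype.card (V n) := by
      refine (Set.ncard_le_ncard (Set.subset_univ _) Set.finite_univ).trans ?_
      rw [Set.ncard_univ, Nat.card_eq_fintype_card]
    have h2 : Fintype.card (V n) = 2 ^ n := by simp [ZMod.card]
    have h3 : (2 : ℕ) ^ n ≤ 2 ^ 3 := Nat.pow_le_pow_right (by norm_num) (by omega)
    have h4 : 27 ≤ 27 ^ (⌊1 / (4 * ε)⌋₊ + 1) := by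
      rw [pow_succ]
      exact Nat.le_mul_of_pos_left _ (by positivity)
    omega
  · set t0 := ⌈(1 / 4 + ε) * (n : ℝ)⌉₊ with ht0
    have hn' : (4 : ℝ) ≤ n := by exact_mod_cast hn
    have h1 : (t0 : ℝ) < (1 / 4 + ε) * n + 1 := Nat.ceil_lt_add_one (by positivity)
    have h2 : (t0 : ℝ) ≤ (3 / 4 - ε) * ((n : ℝ) - (0 : ℕ)) := by
      push_cast
      nlinarith
    have h3 : (1 / 4 + ε) * ((n : ℝ) - (0 : ℕ)) ≤ t0 := by
      push_cast
      rw [sub_zero]
      exact Nat.le_ceil _
    have h4 := mid hA L hL ε hε 0 t0 (Nat.zero_le _) h3 h2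
    rw [Nat.choose_zero_right, pow_zero, mul_one, mul_one] at h4
    refine le_trans (Set.ncard_le_ncard ?_ (Set.toFinite _)) h4
    rintro s ⟨o, t, ht, hs⟩
    refine ⟨∅, 0, o, rfl, fun y hy => hs ?_⟩
    have h5 : #{i | y i ≠ o i} = t0 := by
      have := hy.2
      simpa using this
    have h6 : t0 ≤ t := Nat.ceil_le.2 ht
    exact h5.le.trans h6

lemma radial_wt {n : ℕ} {S : Set (V n)} (h : Radial S) :
    ∃ o : V n, ∀ y y', wt univ y o = wt univ y' o → (y ∈ S ↔ y' ∈ S) := by
  obtain ⟨o, D, rfl⟩ := h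
  refine ⟨o, fun y y' hyy => ?_⟩
  have h1 : #{i | y i ≠ o i} = #{i | y' i ≠ o i} := hyy
  simp only [Set.mem_ofPred_eq, h1]

lemma bin16 (q : ℕ) : (16 ^ 16) ^ q ≤ (16 * q + 1) * (16 * q).choose q * (15 ^ 15) ^ q := by
  have h := P8H46.BS.Hw.bin q (15 * q)
  have e : q + 15 * q = 16 * q := by ring
  rw [e] at h
  rcases Nat.eq_zero_or_pos q with h0 | h0
  · subst h0
    simp
  have h1 : (16 * q) ^ (16 * q) = (16 ^ 16) ^ q * q ^ (16 * q) := by
    rw [mul_pow, ← pow_mul]
  have h2 : q ^ q * (15 * q) ^ (15 * q) = (15 ^ 15) ^ q * q ^ (16 * q) := by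
    rw [mul_pow, ← pow_mul, mul_comm (15 ^ (15 * q)), ← mul_assoc, ← pow_add, e]
    ring
  rw [h1, h2] at h
  have h3 : 0 < q ^ (16 * q) := by positivity
  refine Nat.le_of_mul_le_mul_right ?_ h3
  refine h.trans (le_of_eq ?_)
  ring

/-- **Theorem.** Let `A ⊆ (F_2^n)^2` be corner-free and let `L s` be its rows (or its columns, or its
diagonals).

(1) Let `ε > 0` and `(1/4 + ε) (n - k) ≤ t ≤ (3/4 - ε) (n - k)`. At most
`4 27^(⌊1/(4 ε)⌋ + 1) C(n, k) 4^k` of the sets `L s` contain a sphere of radius `t` in a subcube of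
codimension `k`.

(2) For every `ε > 0` there is `C` such that always at most `C` of the sets `L s` contain a ball of
radius at least `(1/4 + ε) n`.

(3) For `0 ≤ τ < 1/4` there are `ρ > 1`, `c > 0` and for all `n` a corner-free set with at least
`c ρ^n` rows which contain a ball of radius at least `τ n`.

(4) For every `n` there is a corner-free set with `n + 1` different rows which are the spheres of
radius `0, 1, ..., n` around `0`.

(5) There is `C` such that `|A| ≤ C T 2.96^n` if all `L s` are unions of `T` radial sets.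

(6) There is `c > 0` and for all `n` a corner-free set with at least `c 2.5^n` elements all of whose
rows are balls of radius `⌊n / 16⌋`.

(7) There is `C` such that `|A| ≤ C T 3.64^n` if all `L s` are unions of `T` intersections of a subcube
and a radial set.

(8) The largest corner-free sets with radial rows are given by packings: for all `n`, `t`
`M(n, t) ∑_{i ≤ t} C(n, i) ≤ rad(n) ≤ 8 ∑_{t ≤ n / 2} M(n, t) C(n, t)`. -/
theorem result :
    (∀ (n k t : ℕ) (ε : ℝ) (A : Finset (V n × V n)) (L : V n → Set (V n)), CornerFree A →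
      IsLines A L → 0 < ε → k ≤ n → (1 / 4 + ε) * ((n : ℝ) - k) ≤ t →
      (t : ℝ) ≤ (3 / 4 - ε) * ((n : ℝ) - k) →
      Set.ncard {s | ∃ (F : Finset (Fin n)) (v o : V n), #F = k ∧ Sphere F v o t ⊆ L s} ≤
        4 * 27 ^ (⌊1 / (4 * ε)⌋₊ + 1) * (n.choose k * 4 ^ k)) ∧
    (∀ ε : ℝ, 0 < ε → ∃ C : ℕ, ∀ (n : ℕ) (A : Finset (V n × V n)) (L : V n → Set (V n)),
      CornerFree A → IsLines A L →
      Set.ncard {s | ∃ (o : V n) (t : ℕ), (1 / 4 + ε) * n ≤ t ∧ Ball o t ⊆ L s} ≤ C) ∧
    (∀ τ : ℝ, 0 ≤ τ → τ < 1 / 4 → ∃ ρ c : ℝ, 1 < ρ ∧ 0 < c ∧ ∀ n : ℕ, ∃ A : Finset (V n × V n),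
      CornerFree A ∧
      c * ρ ^ n ≤ Set.ncard {x | ∃ (o : V n) (t : ℕ), τ * n ≤ t ∧ Ball o t ⊆ {y | (x, y) ∈ A}}) ∧
    (∀ n : ℕ, ∃ A : Finset (V n × V n), CornerFree A ∧ ∃ x : Fin (n + 1) → V n,
      Function.Injective x ∧ ∀ t, {y | (x t, y) ∈ A} = Sphere ∅ 0 0 t) ∧
    (∃ C : ℝ, ∀ (n T : ℕ) (A : Finset (V n × V n)) (L : V n → Set (V n)), CornerFree A →
      IsLines A L → (∀ s, ∃ P : Fin T → Set (V n), (∀ t, Radial (P t)) ∧ L s = ⋃ t, P t) →
      (#A : ℝ) ≤ C * T * (2.96 : ℝ) ^ n) ∧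
    (∃ c : ℝ, 0 < c ∧ ∀ n : ℕ, ∃ A : Finset (V n × V n), CornerFree A ∧
      (∀ x, ∃ o : V n, {y | (x, y) ∈ A} = Ball o (n / 16)) ∧ c * (2.5 : ℝ) ^ n ≤ #A) ∧
    (∃ C : ℝ, ∀ (n T : ℕ) (A : Finset (V n × V n)) (L : V n → Set (V n)), CornerFree A →
      IsLines A L → (∀ s, ∃ P : Fin T → Set (V n), (∀ t, SubcubeRadial (P t)) ∧ L s = ⋃ t, P t) →
      (#A : ℝ) ≤ C * T * (3.64 : ℝ) ^ n) ∧
    (∀ n : ℕ, (∀ t, M n t * ∑ i ∈ range (t + 1), n.choose i ≤ rad n) ∧
      rad n ≤ 8 * ∑ t ∈ range (n / 2 + 1), M n t * n.choose t) := by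
  classical
  refine ⟨?_, ?_, ?_, ?_, ?_, ?_, ?_, ?_⟩
  · intro n k t ε A L hA hL hε hk h1 h2
    obtain ⟨A', hA', -, hL'⟩ := Pool.Agent.W856.Corner.lines_reduce A hA L hL
    exact mid hA' L (fun x => Set.ext fun y => hL' x y) ε hε k t hk h1 h2
  · intro ε hε
    set δ := min ε (1 / 8) with hδ
    have hδ0 : 0 < δ := lt_min hε (by norm_num)
    refine ⟨4 * 27 ^ (⌊1 / (4 * δ)⌋₊ + 1), fun n A L hA hL => ?_⟩
    obtain ⟨A', hA', -, hL'⟩ := Pool.Agent.W856.Corner.lines_reduce A hA L hL
    refine le_trans (Set.ncard_le_ncard ?_ (Set.toFinite _))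
      (ball_bound hA' L (fun x => Set.ext fun y => hL' x y) δ hδ0 (min_le_right _ _))
    rintro s ⟨o, t, ht, hs⟩
    refine ⟨o, t, le_trans ?_ ht, hs⟩
    have : δ ≤ ε := min_le_left _ _
    exact mul_le_mul_of_nonneg_right (by linarith) (by positivity)
  · intro τ h0 h1
    obtain ⟨ρ, c, hρ, hc, h⟩ := P8H46.BS.code_rows P8H46.BS.gv τ h0 h1
    refine ⟨ρ, c, hρ, hc, fun n => ?_⟩
    obtain ⟨A, hA, X, hX, hX'⟩ := h n
    refine ⟨A, hA, hX.trans ?_⟩
    rw [← Set.ncard_coe_finset X]
    refine Nat.cast_le.2 (Set.ncard_le_ncard ?_ (Set.toFinite _))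
    intro x hx
    obtain ⟨o, t, ht, hb⟩ := hX' x hx
    exact ⟨o, t, ht, fun y hy => hb y hy⟩
  · intro n
    obtain ⟨A, hA, x, hx, h⟩ := P8H46.BS.all_radii n
    refine ⟨A, hA, x, hx, fun t => ?_⟩
    ext y
    rw [Set.mem_ofPred_eq, h t y]
    unfold Sphere wt
    simp
  · obtain ⟨C, hC⟩ := P8H46.BS.radial_main P8H46.BS.eq P8H46.BS.pack P8H46.BS.rlow P8H46.BS.mult
      P8H46.BS.trick
    refine ⟨C, fun n T A L hA hL h => ?_⟩
    obtain ⟨A', hA', hcard, hL'⟩ := Pool.Agent.W856.Corner.lines_reduce A hA L hL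
    choose P hP hLP using h
    have := hC n T A' hA' P (fun x t => radial_wt (hP x t))
      (fun x y => by rw [← hL', hLP x, Set.mem_iUnion])
    rwa [hcard] at this
  · obtain ⟨c, hc, h⟩ := P8H46.BS.low_radial P8H46.BS.rup P8H46.BS.greedy P8H46.BS.trick bin16
    refine ⟨c, hc, fun n => ?_⟩
    obtain ⟨A, hA, h1, h2⟩ := h n
    refine ⟨A, hA, fun x => ?_, h2⟩
    obtain ⟨o, ho⟩ := h1 x
    refine ⟨o, ?_⟩
    ext y
    exact ho y
  · obtain ⟨C, hC⟩ := P8H46.BS.sub_main P8H46.BS.eq P8H46.BS.plot P8H46.BS.ramsey P8H46.BS.trick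
    refine ⟨C, fun n T A L hA hL h => ?_⟩
    obtain ⟨A', hA', hcard, hL'⟩ := Pool.Agent.W856.Corner.lines_reduce A hA L hL
    choose P hP hLP using h
    have := hC n T A' hA' P (fun x t => subRad_of (hP x t))
      (fun x y => by rw [← hL', hLP x, Set.mem_iUnion])
    rwa [hcard] at this
  · intro n
    constructor
    · intro t
      obtain ⟨X, o, hX, hXc⟩ := M_attained n t
      obtain ⟨h1, h2⟩ := P8H46.BS.code_lower t X o ((pack_iff t X o).1 hX)
      rw [← hXc]
      refine h2.trans (le_rad h1 fun x => ?_)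
      by_cases hx : x ∈ X
      · refine ⟨o x, {r | r ≤ t}, ?_⟩
        ext y
        simp only [Set.mem_ofPred_eq, P8H46.BS.mem_ballSet, hx, true_and]
        rfl
      · refine ⟨0, ∅, ?_⟩
        ext y
        simp [P8H46.BS.mem_ballSet, hx]
    · obtain ⟨A, hA, hr, hc⟩ := rad_attained n
      rw [← hc]
      have h1 := P8H46.BS.code_main P8H46.BS.eq 1 A hA (fun x _ => {y | (x, y) ∈ A})
        (fun x _ => radial_wt (hr x)) (fun x y => by simp) (M n)
        (fun t _ X o h => le_M ((pack_iff t X o).2 h))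
      refine h1.trans ?_
      rw [mul_one]
      refine Nat.mul_le_mul_left _ (sum_le_sum_of_subset ?_)
      intro t ht
      rw [mem_filter] at ht
      rw [mem_range]
      omega

end Pool.Agent.Results.MP_db4732_co.HammingSpheres
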